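import Pool.Agent.H726.GB.Tail

/-!
# Gaussian tails for `|S w| - a |B w|`, summed over all sizes with the weight `x ^ n`,
with an explicit constant
-/

set_option autoImplicit false
set_option maxHeartbeats 1000000

namespace Pool.Agent.R442.LB

open Finset TH966.AK H726.GB
open scoped Classical

noncomputable section

variable {α σ : Type} {Y : Sys α σ} {f : α → ℝ}

/-- upper tail, one size -/
theorem up_n (h0 : Y.n0 = 0) (hf : Y.Wt f) {a t δ T : ℝ} {n m : ℕ} (ha : 0 < a)
    (hB : ∀ w ∈ Y.K n, ((Y.B w).card : ℝ) ≤ T)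
    (hδ0 : 0 ≤ δ) (hδ1 : δ ≤ 1) (hδT : δ * T ≤ t / 2) (hm : (a + 2) * (Y.C * m) ≤ t / 2) :
    (∑ w ∈ (Y.K n).filter (fun w => t ≤ (Y.S w).card - a * (Y.B w).card), f w) * (a + δ) ^ m ≤
      Y.af f (n + Y.s * m) := by
  have hC : (1 : ℝ) ≤ Y.C := by exact_mod_cast Y.hC
  set G := (Y.K n).filter (fun w => t ≤ (Y.S w).card - a * (Y.B w).card) with hG
  have hCm : (0 : ℝ) ≤ Y.C * m := by positivity
  calc (∑ w ∈ G, f w) * (a + δ) ^ m = ∑ w ∈ G, f w * (a + δ) ^ m := by rw [Finset.sum_mul]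
    _ ≤ ∑ w ∈ G, U Y f m w := by
        refine Finset.sum_le_sum fun w hw => ?_
        rw [hG, mem_filter] at hw
        refine U_lower hf (by linarith) m n w hw.1 ?_
        have hb := hB w hw.1
        have hb0 : (0 : ℝ) ≤ (Y.B w).card := by positivity
        have e1 : δ * (Y.B w).card ≤ t / 2 := (mul_le_mul_of_nonneg_left hb hδ0).trans hδT
        have e2 : δ * (Y.C * m) ≤ 1 * (Y.C * m) := mul_le_mul_of_nonneg_right hδ1 hCm
        have h3 := hw.2
        nlinarith
    _ ≤ ∑ w ∈ Y.K n, U Y f m w := by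
        refine Finset.sum_le_sum_of_subset_of_nonneg (filter_subset _ _) fun w hw _ => ?_
        exact U_nonneg hf m n w hw
    _ ≤ Y.af f (n + Y.s * m) := U_sum h0 hf m n

/-- lower tail, one size -/
theorem low_n (h0 : Y.n0 = 0) (hf : Y.Wt f) {a t δ T : ℝ} {n m : ℕ}
    (hB : ∀ w ∈ Y.K (n + Y.s * m), ((Y.B w).card : ℝ) ≤ T)
    (hδ0 : 0 ≤ δ) (hδ1 : δ < a) (hδT : δ * T ≤ t / 2) (hm : (a + 2) * (Y.C * m) ≤ t / 2) :
    (∑ w ∈ (Y.K (n + Y.s * m)).filter (fun w => t ≤ a * (Y.B w).card - (Y.S w).card), f w) *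
      (1 / (a - δ)) ^ m ≤ Y.af f n := by
  have hC : (1 : ℝ) ≤ Y.C := by exact_mod_cast Y.hC
  set G := (Y.K (n + Y.s * m)).filter (fun w => t ≤ a * (Y.B w).card - (Y.S w).card) with hG
  have hCm : (0 : ℝ) ≤ Y.C * m := by positivity
  have had : 0 < a - δ := by linarith
  calc (∑ w ∈ G, f w) * (1 / (a - δ)) ^ m = ∑ w ∈ G, f w * (1 / (a - δ)) ^ m := by
        rw [Finset.sum_mul]
    _ ≤ ∑ w ∈ G, V Y f m w := by
        refine Finset.sum_le_sum fun w hw => ?_
        rw [hG, mem_filter] at hw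
        refine V_lower h0 hf (by positivity) m n w hw.1 ?_
        have hb := hB w hw.1
        have hb0 : (0 : ℝ) ≤ (Y.B w).card := by positivity
        have e1 : δ * (Y.B w).card ≤ t / 2 := (mul_le_mul_of_nonneg_left hb hδ0).trans hδT
        have e2 : 0 ≤ δ * (Y.C * m) := by positivity
        have h3 := hw.2
        rw [one_div, inv_mul_le_iff₀ had]
        nlinarith
    _ ≤ ∑ w ∈ Y.K (n + Y.s * m), V Y f m w := by
        refine Finset.sum_le_sum_of_subset_of_nonneg (filter_subset _ _) fun w hw _ => ?_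
        exact V_nonneg h0 hf m n w hw
    _ ≤ Y.af f n := V_sum h0 hf m n

theorem up_sum (h0 : Y.n0 = 0) (hf : Y.Wt f) {a x t δ T Z : ℝ} {l m : ℕ} (ha : 0 < a)
    (hx : 0 < x) (hax : a * x ^ Y.s = 1)
    (hB : ∀ n ≤ l, ∀ w ∈ Y.K n, ((Y.B w).card : ℝ) ≤ T)
    (hδ0 : 0 ≤ δ) (hδ1 : δ ≤ 1) (hδT : δ * T ≤ t / 2) (hm : (a + 2) * (Y.C * m) ≤ t / 2)
    (hZ : ∀ N : ℕ, ∑ n ∈ range N, x ^ n * Y.af f n ≤ Z) :
    ∑ n ∈ range (l + 1), x ^ n *
      ∑ w ∈ (Y.K n).filter (fun w => t ≤ (Y.S w).card - a * (Y.B w).card), f w ≤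
      Z * Real.exp (-(m * (δ / (a + 1)))) := by
  have haf : ∀ n, 0 ≤ Y.af f n := fun n => Finset.sum_nonneg fun w hw => hf.1 _ w hw
  have hZ0 : 0 ≤ Z := by simpa using hZ 0
  have hp : 0 < (a + δ) ^ m := by positivity
  have hxa : (x ^ (Y.s * m)) * a ^ m = 1 := by
    rw [pow_mul, ← mul_pow, mul_comm, hax, one_pow]
  have h1 : (∑ n ∈ range (l + 1), x ^ n *
      ∑ w ∈ (Y.K n).filter (fun w => t ≤ (Y.S w).card - a * (Y.B w).card), f w) * (a + δ) ^ m ≤
      a ^ m * Z := by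
    calc (∑ n ∈ range (l + 1), x ^ n *
          ∑ w ∈ (Y.K n).filter (fun w => t ≤ (Y.S w).card - a * (Y.B w).card), f w) * (a + δ) ^ m
        ≤ ∑ n ∈ range (l + 1), x ^ n * Y.af f (n + Y.s * m) := by
          rw [Finset.sum_mul]
          refine Finset.sum_le_sum fun n hn => ?_
          rw [mul_assoc]
          have hn' : n ≤ l := by have := mem_range.1 hn; omega
          exact mul_le_mul_of_nonneg_left
            (up_n h0 hf ha (hB n hn') hδ0 hδ1 hδT hm) (by positivity)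
      _ = a ^ m * ∑ n ∈ range (l + 1), x ^ (n + Y.s * m) * Y.af f (n + Y.s * m) := by
          rw [Finset.mul_sum]
          refine Finset.sum_congr rfl fun n _ => ?_
          rw [pow_add]
          calc x ^ n * Y.af f (n + Y.s * m)
              = (x ^ (Y.s * m) * a ^ m) * (x ^ n * Y.af f (n + Y.s * m)) := by rw [hxa, one_mul]
            _ = _ := by ring
      _ ≤ a ^ m * ∑ k ∈ range (l + 1 + Y.s * m), x ^ k * Y.af f k := by
          apply mul_le_mul_of_nonneg_left _ (by positivity)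
          have h3 := Finset.sum_Ico_add' (fun k => x ^ k * Y.af f k) 0 (l + 1) (Y.s * m)
          rw [← Finset.range_eq_Ico] at h3
          rw [h3]
          refine Finset.sum_le_sum_of_subset_of_nonneg ?_ fun k _ _ => ?_
          · intro k hk
            rw [Finset.mem_Ico] at hk
            exact mem_range.2 hk.2
          · have := haf k
            positivity
      _ ≤ a ^ m * Z := mul_le_mul_of_nonneg_left (hZ _) (by positivity)
  calc _ ≤ a ^ m * Z / (a + δ) ^ m := by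
        rw [le_div_iff₀ hp]; exact h1
    _ = Z * (a / (a + δ)) ^ m := by rw [div_pow]; ring
    _ ≤ _ := by
        apply mul_le_mul_of_nonneg_left _ hZ0
        apply pow_div_le_exp (by positivity) (by positivity)
        have h8 : δ / (a + 1) ≤ δ / (a + δ) := by
          apply div_le_div_of_nonneg_left hδ0 (by linarith) (by linarith)
        have h9 : a / (a + δ) = 1 - δ / (a + δ) := by field_simp; ring
        linarith

theorem low_sum (h0 : Y.n0 = 0) (hf : Y.Wt f) {a x t δ T Z : ℝ} {l m : ℕ} (ha : 0 < a)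
    (hx : 0 < x) (hax : a * x ^ Y.s = 1)
    (hB : ∀ n ≤ l, ∀ w ∈ Y.K n, ((Y.B w).card : ℝ) ≤ T)
    (hδ0 : 0 ≤ δ) (hδ1 : δ < a) (hδT : δ * T ≤ t / 2) (hm : (a + 2) * (Y.C * m) ≤ t / 2)
    (hemp : ∀ n < Y.s * m, (Y.K n).filter (fun w => t ≤ a * (Y.B w).card - (Y.S w).card) = ∅)
    (hZ : ∀ N : ℕ, ∑ n ∈ range N, x ^ n * Y.af f n ≤ Z) :
    ∑ n ∈ range (l + 1), x ^ n *
      ∑ w ∈ (Y.K n).filter (fun w => t ≤ a * (Y.B w).card - (Y.S w).card), f w ≤
      Z * Real.exp (-(m * (δ / (a + 1)))) := by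
  have haf : ∀ n, 0 ≤ Y.af f n := fun n => Finset.sum_nonneg fun w hw => hf.1 _ w hw
  have hZ0 : 0 ≤ Z := by simpa using hZ 0
  have had : 0 < a - δ := by linarith
  have hp : 0 < (1 / (a - δ)) ^ m := by positivity
  have hxa : (x ^ (Y.s * m)) * a ^ m = 1 := by
    rw [pow_mul, ← mul_pow, mul_comm, hax, one_pow]
  obtain ⟨g, hg⟩ : ∃ g : ℕ → ℝ, g = fun n => x ^ n *
      ∑ w ∈ (Y.K n).filter (fun w => t ≤ a * (Y.B w).card - (Y.S w).card), f w := ⟨_, rfl⟩
  have hg0 : ∀ n < Y.s * m, g n = 0 := by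
    intro n hn
    rw [hg]
    simp only
    rw [hemp n hn, Finset.sum_empty, mul_zero]
  have hgn : ∀ n, x ^ n *
      ∑ w ∈ (Y.K n).filter (fun w => t ≤ a * (Y.B w).card - (Y.S w).card), f w = g n := by
    intro n; rw [hg]
  simp only [hgn]
  have h2 : ∑ n ∈ range (l + 1), g n ≤ ∑ i ∈ range (l + 1 - Y.s * m), g (Y.s * m + i) := by
    rw [← Finset.sum_Ico_eq_sum_range]
    rw [← Finset.sum_subset (s₁ := (range (l + 1)).filter (fun n => Y.s * m ≤ n))
      (filter_subset _ _) (fun n hn hn' => ?_)]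
    · apply le_of_eq
      apply Finset.sum_congr _ fun _ _ => rfl
      ext n
      rw [mem_filter, mem_range, Finset.mem_Ico]
      tauto
    · rw [mem_filter, not_and] at hn'
      exact hg0 n (not_le.1 (hn' hn))
  have h1 : (∑ i ∈ range (l + 1 - Y.s * m), g (Y.s * m + i)) * (1 / (a - δ)) ^ m * a ^ m ≤ Z := by
    calc (∑ i ∈ range (l + 1 - Y.s * m), g (Y.s * m + i)) * (1 / (a - δ)) ^ m * a ^ m
        ≤ ∑ i ∈ range (l + 1 - Y.s * m), x ^ i * Y.af f i := by
          rw [Finset.sum_mul, Finset.sum_mul]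
          refine Finset.sum_le_sum fun i hi => ?_
          have hi' := mem_range.1 hi
          have h5 := low_n (n := i) (m := m) (t := t) h0 hf (hB (i + Y.s * m) (by omega)) hδ0 hδ1 hδT hm
          have e1 : g (Y.s * m + i) * (1 / (a - δ)) ^ m * a ^ m =
              (x ^ (Y.s * m) * a ^ m) * (x ^ i * ((∑ w ∈ (Y.K (i + Y.s * m)).filter
                (fun w => t ≤ a * (Y.B w).card - (Y.S w).card), f w) * (1 / (a - δ)) ^ m)) := by
            rw [← hgn, add_comm (Y.s * m) i, pow_add]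
            ring
          rw [e1, hxa, one_mul]
          exact mul_le_mul_of_nonneg_left h5 (by positivity)
      _ ≤ Z := hZ _
  refine h2.trans ?_
  have hpa : 0 < a ^ m := by positivity
  calc ∑ i ∈ range (l + 1 - Y.s * m), g (Y.s * m + i)
      ≤ Z / ((1 / (a - δ)) ^ m * a ^ m) := by
        rw [le_div_iff₀ (by positivity), ← mul_assoc]; exact h1
    _ = Z * ((a - δ) / a) ^ m := by
        rw [div_pow, div_pow, one_pow]
        have : a ^ m ≠ 0 := by positivity
        have : (a - δ) ^ m ≠ 0 := by positivity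
        field_simp
    _ ≤ _ := by
        apply mul_le_mul_of_nonneg_left _ hZ0
        apply pow_div_le_exp (by positivity) (by positivity)
        have h8 : δ / (a + 1) ≤ δ / a := by
          apply div_le_div_of_nonneg_left hδ0 (by linarith) (by linarith)
        have h9 : (a - δ) / a = 1 - δ / a := by field_simp
        linarith

/-- the constant of the exponent -/
def cst (C s : ℕ) (a : ℝ) : ℝ :=
  1 / (2 * C * (a + 2) * (s + 1) * max 1 a) * min 1 a / (4 * C * max 1 a * (a + 1))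

theorem cst_pos {C s : ℕ} {a : ℝ} (hC : 1 ≤ C) (ha : 0 < a) : 0 < cst C s a := by
  unfold cst
  have : (0 : ℝ) < C := by exact_mod_cast hC
  have h1 : (0 : ℝ) < max 1 a := lt_of_lt_of_le one_pos (le_max_left _ _)
  have h2 : (0 : ℝ) < min 1 a := lt_min one_pos ha
  positivity

/-- **Gaussian tails.** -/
theorem tailx (h0 : Y.n0 = 0) (hf : Y.Wt f) {a x t Z : ℝ} {l : ℕ} (ha : 0 < a)
    (hx : 0 < x) (hax : a * x ^ Y.s = 1)
    (hB : ∀ n w, w ∈ Y.K n → (Y.B w).card ≤ Y.C * (n + 1))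
    (hl : 1 ≤ l) (ht0 : 0 ≤ t)
    (hZ : ∀ N : ℕ, ∑ n ∈ range N, x ^ n * Y.af f n ≤ Z) :
    ∑ n ∈ range (l + 1), x ^ n *
      ∑ w ∈ (Y.K n).filter (fun w => t ≤ |((Y.S w).card : ℝ) - a * (Y.B w).card|), f w ≤
      2 * Real.exp 1 * Real.exp (-(cst Y.C Y.s a * (t ^ 2 / l))) * Z := by
  have hC : (1 : ℝ) ≤ Y.C := by exact_mod_cast Y.hC
  have hZ0 : 0 ≤ Z := by simpa using hZ 0
  obtain ⟨A, hA⟩ : ∃ A : ℝ, A = max 1 a := ⟨_, rfl⟩
  obtain ⟨b, hb⟩ : ∃ b : ℝ, b = min 1 a := ⟨_, rfl⟩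
  have hA1 : 1 ≤ A := by rw [hA]; exact le_max_left _ _
  have hAa : a ≤ A := by rw [hA]; exact le_max_right _ _
  have hb0 : 0 < b := by rw [hb]; exact lt_min one_pos ha
  have hb1 : b ≤ 1 := by rw [hb]; exact min_le_left _ _
  have hba : b ≤ a := by rw [hb]; exact min_le_right _ _
  have hs0 : (0 : ℝ) ≤ Y.s := by positivity
  obtain ⟨κ, hκ⟩ : ∃ κ : ℝ, κ = 1 / (2 * Y.C * (a + 2) * (Y.s + 1) * A) := ⟨_, rfl⟩
  have hκ0 : 0 < κ := by rw [hκ]; positivity
  have hcst : cst Y.C Y.s a = κ * b / (4 * Y.C * A * (a + 1)) := by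
    unfold cst; rw [hκ, hA, hb]
  rw [hcst]
  have hl' : (1 : ℝ) ≤ l := by exact_mod_cast hl
  -- empty unless `t` is small
  have hemp : ∀ n w, w ∈ Y.K n → t ≤ |((Y.S w).card : ℝ) - a * (Y.B w).card| →
      t ≤ A * (Y.C * (n + 1)) := by
    intro n w hw hcon
    have h1 : ((Y.B w).card : ℝ) ≤ Y.C * (n + 1) := by exact_mod_cast hB n w hw
    have h2 : ((Y.S w).card : ℝ) ≤ Y.C * (n + 1) := by exact_mod_cast Y.S_le n w hw
    have h3 : (0 : ℝ) ≤ (Y.B w).card := by positivity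
    have h4 : (0 : ℝ) ≤ (Y.S w).card := by positivity
    refine hcon.trans ?_
    rw [abs_le]
    have h7 : 0 ≤ a * (Y.B w).card := by positivity
    have h6 : a * (Y.B w).card ≤ A * (Y.C * (n + 1)) := by
      apply mul_le_mul hAa h1 h3 (by linarith)
    have h8 : (Y.C : ℝ) * (n + 1) ≤ A * (Y.C * (n + 1)) :=
      le_mul_of_one_le_left (by positivity) hA1
    constructor <;> linarith
  have hfn : ∀ n, ∀ w ∈ Y.K n, 0 ≤ f w := fun n w hw => hf.1 n w hw
  rcases le_or_gt t (A * (Y.C * (l + 1))) with htT | htT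
  swap
  · have hz : ∀ n ∈ range (l + 1), x ^ n *
        ∑ w ∈ (Y.K n).filter (fun w => t ≤ |((Y.S w).card : ℝ) - a * (Y.B w).card|), f w = 0 := by
      intro n hn
      have he : (Y.K n).filter (fun w => t ≤ |((Y.S w).card : ℝ) - a * (Y.B w).card|) = ∅ := by
        rw [Finset.filter_eq_empty_iff]
        intro w hw hcon
        have h1 := hemp n w hw hcon
        have hn' : (n : ℝ) ≤ l := by
          have := mem_range.1 hn
          exact_mod_cast (by omega : n ≤ l)
        have h2 : A * (Y.C * (n + 1)) ≤ A * (Y.C * (l + 1)) := by gcongr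
        linarith
      rw [he, Finset.sum_empty, mul_zero]
    rw [Finset.sum_eq_zero hz]
    positivity
  set m : ℕ := ⌊κ * t⌋₊ with hm
  have hm1 : (m : ℝ) ≤ κ * t := Nat.floor_le (by positivity)
  have hm2 : κ * t < m + 1 := Nat.lt_floor_add_one _
  set T : ℝ := Y.C * (l + 1) with hT
  have hT0 : 0 < T := by rw [hT]; positivity
  have hT2 : T ≤ 2 * Y.C * l := by rw [hT]; nlinarith
  set δ : ℝ := b * t / (2 * T * A) with hδ
  have hδ0 : 0 ≤ δ := by positivity
  have hδb : δ ≤ b / 2 := by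
    rw [hδ, div_le_div_iff₀ (by positivity) (by norm_num)]
    have : b * t ≤ b * (A * T) := mul_le_mul_of_nonneg_left htT hb0.le
    nlinarith
  have hδT : δ * T ≤ t / 2 := by
    have e : δ * T = b * t / (2 * A) := by rw [hδ]; field_simp
    rw [e, div_le_div_iff₀ (by positivity) (by norm_num)]
    have : b * t ≤ A * t := mul_le_mul_of_nonneg_right (hb1.trans hA1) ht0
    nlinarith
  have hκe : κ * (2 * Y.C * (a + 2) * (Y.s + 1) * A) = 1 := by
    rw [hκ]; field_simp
  have hmC : (a + 2) * (Y.C * m) ≤ t / 2 := by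
    have e1 : κ * t * (2 * Y.C * (a + 2)) * ((Y.s + 1) * A) = t := by
      calc κ * t * (2 * Y.C * (a + 2)) * ((Y.s + 1) * A) =
          (κ * (2 * Y.C * (a + 2) * (Y.s + 1) * A)) * t := by ring
        _ = t := by rw [hκe, one_mul]
    have e2 : κ * t * (2 * Y.C * (a + 2)) ≤ κ * t * (2 * Y.C * (a + 2)) * ((Y.s + 1) * A) := by
      apply le_mul_of_one_le_right (by positivity)
      nlinarith
    have e3 : (m : ℝ) * (2 * Y.C * (a + 2)) ≤ κ * t * (2 * Y.C * (a + 2)) :=
      mul_le_mul_of_nonneg_right hm1 (by positivity)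
    nlinarith
  -- sizes below `s m` do not occur
  have hsmall : ∀ n < Y.s * m,
      (Y.K n).filter (fun w => t ≤ |((Y.S w).card : ℝ) - a * (Y.B w).card|) = ∅ := by
    intro n hn
    rw [Finset.filter_eq_empty_iff]
    intro w hw hcon
    have h1 := hemp n w hw hcon
    have h2 : (n : ℝ) + 1 ≤ Y.s * m := by exact_mod_cast hn
    have h3 : (Y.s : ℝ) * m ≤ Y.s * (κ * t) := mul_le_mul_of_nonneg_left hm1 hs0
    have h4 : (Y.s : ℝ) * (κ * t) ≤ Y.s * (κ * (A * (Y.C * (n + 1)))) := by gcongr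
    have h5 : (Y.s : ℝ) * (κ * (A * (Y.C * (n + 1)))) * (2 * (a + 2)) ≤ n + 1 := by
      calc (Y.s : ℝ) * (κ * (A * (Y.C * (n + 1)))) * (2 * (a + 2))
          ≤ (Y.s + 1) * (κ * (A * (Y.C * (n + 1)))) * (2 * (a + 2)) := by
            gcongr
            linarith
        _ = (κ * (2 * Y.C * (a + 2) * (Y.s + 1) * A)) * (n + 1) := by ring
        _ = n + 1 := by rw [hκe, one_mul]
    have h6 : (0 : ℝ) < n + 1 := by positivity
    have h7 : (n : ℝ) + 1 ≤ Y.s * (κ * (A * (Y.C * (n + 1)))) := by linarith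
    have h8 : ((n : ℝ) + 1) * (2 * (a + 2)) ≤ n + 1 :=
      (mul_le_mul_of_nonneg_right h7 (by positivity)).trans h5
    have h9 : ((n : ℝ) + 1) * 1 < ((n : ℝ) + 1) * (2 * (a + 2)) :=
      mul_lt_mul_of_pos_left (by linarith) h6
    linarith
  have hexp : Real.exp (-(m * (δ / (a + 1)))) ≤
      Real.exp 1 * Real.exp (-(κ * b / (4 * Y.C * A * (a + 1)) * (t ^ 2 / l))) := by
    rw [← Real.exp_add, Real.exp_le_exp]
    have h1 : κ * b / (4 * Y.C * A * (a + 1)) * (t ^ 2 / l) ≤ κ * t * (δ / (a + 1)) := by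
      rw [hδ]
      have e1 : κ * b / (4 * Y.C * A * (a + 1)) * (t ^ 2 / l) =
          κ * b * t ^ 2 / ((a + 1) * A * (4 * Y.C * l)) := by
        field_simp
      have e2 : κ * t * (b * t / (2 * T * A) / (a + 1)) =
          κ * b * t ^ 2 / ((a + 1) * A * (2 * T)) := by
        field_simp
      rw [e1, e2]
      apply div_le_div_of_nonneg_left (by positivity) (by positivity)
      apply mul_le_mul_of_nonneg_left _ (by positivity)
      linarith
    have h2 : κ * t * (δ / (a + 1)) ≤ (m + 1) * (δ / (a + 1)) :=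
      mul_le_mul_of_nonneg_right hm2.le (by positivity)
    have h3 : δ / (a + 1) ≤ 1 := by
      rw [div_le_one (by positivity)]; linarith
    have h4 : ((m : ℝ) + 1) * (δ / (a + 1)) = m * (δ / (a + 1)) + δ / (a + 1) := by ring
    linarith
  have hBl : ∀ n ≤ l, ∀ w ∈ Y.K n, ((Y.B w).card : ℝ) ≤ T := by
    intro n hn w hw
    have h1 : ((Y.B w).card : ℝ) ≤ Y.C * (n + 1) := by exact_mod_cast hB n w hw
    have hn' : (n : ℝ) ≤ l := by exact_mod_cast hn
    refine h1.trans ?_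
    rw [hT]; gcongr
  have hup := up_sum h0 hf ha hx hax hBl hδ0 (by linarith) hδT hmC hZ
  have hlo := low_sum h0 hf ha hx hax hBl hδ0 (by linarith) hδT hmC (by
    intro n hn
    rw [Finset.filter_eq_empty_iff]
    intro w hw hcon
    have h1 := hsmall n hn
    rw [Finset.filter_eq_empty_iff] at h1
    refine h1 hw (hcon.trans ?_)
    rw [abs_sub_comm]
    exact le_abs_self _) hZ
  have hcomb : ∀ n ∈ range (l + 1), x ^ n *
      ∑ w ∈ (Y.K n).filter (fun w => t ≤ |((Y.S w).card : ℝ) - a * (Y.B w).card|), f w ≤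
      x ^ n * (∑ w ∈ (Y.K n).filter (fun w => t ≤ (Y.S w).card - a * (Y.B w).card), f w) +
      x ^ n * (∑ w ∈ (Y.K n).filter (fun w => t ≤ a * (Y.B w).card - (Y.S w).card), f w) := by
    intro n _
    rw [← mul_add]
    apply mul_le_mul_of_nonneg_left _ (by positivity)
    have hsub : (Y.K n).filter (fun w => t ≤ |((Y.S w).card : ℝ) - a * (Y.B w).card|) ⊆
        (Y.K n).filter (fun w => t ≤ (Y.S w).card - a * (Y.B w).card) ∪
        (Y.K n).filter (fun w => t ≤ a * (Y.B w).card - (Y.S w).card) := by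
      intro w hw
      rw [mem_filter] at hw
      rw [mem_union, mem_filter, mem_filter]
      rcases le_abs.1 hw.2 with h | h
      · exact Or.inl ⟨hw.1, h⟩
      · exact Or.inr ⟨hw.1, by linarith⟩
    calc _ ≤ ∑ w ∈ (Y.K n).filter (fun w => t ≤ (Y.S w).card - a * (Y.B w).card) ∪
            (Y.K n).filter (fun w => t ≤ a * (Y.B w).card - (Y.S w).card), f w := by
          refine Finset.sum_le_sum_of_subset_of_nonneg hsub fun w hw _ => ?_
          rw [mem_union, mem_filter, mem_filter] at hw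
          exact hfn n w (by tauto)
      _ ≤ _ := by
          rw [← Finset.sum_union_inter]
          have : 0 ≤ ∑ w ∈ (Y.K n).filter (fun w => t ≤ (Y.S w).card - a * (Y.B w).card) ∩
            (Y.K n).filter (fun w => t ≤ a * (Y.B w).card - (Y.S w).card), f w := by
            refine Finset.sum_nonneg fun w hw => ?_
            rw [mem_inter, mem_filter] at hw
            exact hfn n w hw.1.1
          linarith
  refine (Finset.sum_le_sum hcomb).trans ?_
  rw [Finset.sum_add_distrib]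
  calc _ ≤ Z * Real.exp (-(m * (δ / (a + 1)))) + Z * Real.exp (-(m * (δ / (a + 1)))) :=
        add_le_add hup hlo
    _ = 2 * Real.exp (-(m * (δ / (a + 1)))) * Z := by ring
    _ ≤ 2 * (Real.exp 1 * Real.exp (-(κ * b / (4 * Y.C * A * (a + 1)) * (t ^ 2 / l)))) * Z := by
        gcongr
    _ = _ := by ring

end

end Pool.Agent.R442.LB
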