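import Pool.Agent.H726.GB.Gen
import Pool.Agent.R442.LB.Tail

/-!
# Replacement of one path by another one, in an arbitrary domain and a region of positions
-/

set_option autoImplicit false
set_option maxHeartbeats 1000000

namespace Pool.Agent.R442.LB

open Finset TH966.AK H726.GB
open scoped Classical

noncomputable section

variable {A : P → P → Prop}

/-- two lists of points with the same ends -/
def Ends (U U' : List P) : Prop :=
  U ≠ [] ∧ U' ≠ [] ∧ U.head? = U'.head? ∧ U.getLast? = U'.getLast? ∧ U.Nodup ∧ U'.Nodup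

theorem Ends.symm {U U' : List P} (h : Ends U U') : Ends U' U := by
  obtain ⟨h1, h2, h3, h4, h5, h6⟩ := h
  exact ⟨h2, h1, h3.symm, h4.symm, h6, h5⟩

/-- steps are short -/
def Short (A : P → P → Prop) : Prop := ∀ p q, A p q → |p.1 - q.1| ≤ 1 ∧ |p.2 - q.2| ≤ 1

/-- the rule of the translates by the vectors of `R` -/
def rlD (hA : Short A) (R : Set P) (U U' : List P) (h : Ends U U')
    (hl : U.length ≤ U'.length) : Rl A where
  T V V' := ∃ x, x ∈ R ∧ V = U.map (x + ·) ∧ V' = U'.map (x + ·) ∧ V.IsChain A ∧ V'.IsChain A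
  ρ := 2 * sz (U ++ U')
  k := U.length
  s := U'.length - U.length
  step := hA
  pair := by
    rintro _ _ ⟨x, -, rfl, rfl, c1, c2⟩
    obtain ⟨h1, h2, h3, h4, h5, h6⟩ := h
    refine ⟨by simpa using h1, by simpa using h2, ?_, ?_, ?_, ?_, c1, c2⟩
    · rw [List.head?_map, List.head?_map, h3]
    · rw [List.getLast?_map, List.getLast?_map, h4]
    · exact h5.map (add_right_injective x)
    · exact h6.map (add_right_injective x)
  len := by
    rintro _ _ ⟨x, hx, rfl, rfl, -, -⟩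
    refine ⟨List.length_map _, ?_⟩
    rw [List.length_map]
    omega
  loc := by
    rintro _ _ ⟨x, hx, rfl, rfl, -, -⟩ y hy z hz
    rw [← List.map_append, List.mem_map] at hy hz
    obtain ⟨y, hy, rfl⟩ := hy
    obtain ⟨z, hz, rfl⟩ := hz
    have h1 := sz_le hy
    have h2 := sz_le hz
    simp only [Prod.fst_add, Prod.snd_add, abs_le] at h1 h2 ⊢
    push_cast
    omega

/-- number of places of `w` in `R` where `U` can be replaced by `U'` -/
def ND (A : P → P → Prop) (R : Set P) (U U' w : List P) : ℕ :=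
  Set.ncard {x : P | x ∈ R ∧ (U.map (x + ·)).IsChain A ∧ (U'.map (x + ·)).IsChain A ∧
    U.map (x + ·) <:+: w ∧ ∀ y ∈ U', y ∉ U → x + y ∉ w}

theorem card_S (hA : Short A) (R : Set P) (U U' : List P) (h : Ends U U')
    (hl : U.length ≤ U'.length) (w : List P) :
    ((rlD hA R U U' h hl).sys.S w).card = ND A R U U' w := by
  unfold ND
  rw [← Set.ncard_coe_finset, ← Set.ncard_image_of_injective _ (map_inj (U' := U') h.1)]
  congr 1
  ext ⟨V, V'⟩
  rw [Finset.mem_coe, Set.mem_image]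
  show (V, V') ∈ (rlD hA R U U' h hl).S w ↔ _
  rw [Rl.mem_S]
  constructor
  · rintro ⟨⟨x, hx, rfl, rfl, c1, c2⟩, h2⟩
    exact ⟨x, ⟨hx, c1, c2, free_map.1 h2⟩, rfl⟩
  · rintro ⟨x, ⟨hx, c1, c2, h2⟩, h3⟩
    simp only [Prod.mk.injEq] at h3
    obtain ⟨rfl, rfl⟩ := h3
    exact ⟨⟨x, hx, rfl, rfl, c1, c2⟩, free_map.2 h2⟩

theorem card_B (hA : Short A) (R : Set P) (U U' : List P) (h : Ends U U')
    (hl : U.length ≤ U'.length) (w : List P) :
    ((rlD hA R U U' h hl).sys.B w).card = ND A R U' U w := by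
  unfold ND
  rw [← Set.ncard_coe_finset, ← Set.ncard_image_of_injective _ (map_inj (U' := U') h.1)]
  congr 1
  ext ⟨V, V'⟩
  rw [Finset.mem_coe, Set.mem_image]
  show (V, V') ∈ (rlD hA R U U' h hl).B w ↔ _
  rw [Rl.mem_B]
  constructor
  · rintro ⟨⟨x, hx, rfl, rfl, c1, c2⟩, h2⟩
    exact ⟨x, ⟨hx, c2, c1, free_map.1 h2⟩, rfl⟩
  · rintro ⟨x, ⟨hx, c1, c2, h2⟩, h3⟩
    simp only [Prod.mk.injEq] at h3
    obtain ⟨rfl, rfl⟩ := h3
    exact ⟨⟨x, hx, rfl, rfl, c2, c1⟩, free_map.2 h2⟩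

/-- functions of the two ends are weights -/
theorem wt_of_ends (hA : Short A) (R : Set P) (U U' : List P) (h : Ends U U')
    (hl : U.length ≤ U'.length) {f : List P → ℝ} (hf0 : ∀ w, 0 ≤ f w)
    (hf1 : ∀ w w' : List P, w.head? = w'.head? → w.getLast? = w'.getLast? → f w = f w') :
    (rlD hA R U U' h hl).sys.Wt f := by
  refine ⟨fun _ w _ => hf0 w, ?_⟩
  rintro n w ⟨V, V'⟩ hw hq
  have hq' : (V, V') ∈ (rlD hA R U U' h hl).S w := hq
  have hw' : w ∈ Kw A n := hw
  rw [(rlD hA R U U' h hl).mem_K] at hw'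
  rw [Rl.mem_S] at hq'
  have hpr := (rlD hA R U U' h hl).pair _ _ hq'.1
  obtain ⟨L, R', h1, h2, h3, h4, h5⟩ := Rl.rep_all hpr hw'.2 hq'.2
  have e : (rlD hA R U U' h hl).sys.ins w (V, V') = L ++ V' ++ R' := h2
  rw [e]
  obtain ⟨p1, p2, p3, p4, -⟩ := hpr
  apply hf1
  · rw [h3.1, hw'.2.1]
  · rw [h1]
    rcases List.eq_nil_or_concat R' with hR | ⟨R'', x, hR⟩
    · rw [hR, List.append_nil, List.append_nil, List.getLast?_append_of_ne_nil _ p2,
        List.getLast?_append_of_ne_nil _ p1, p4]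
    · rw [hR]
      simp

/-- the constant for two patterns -/
def cc (U U' : List P) (x : ℝ) : ℝ :=
  let k := min U.length U'.length
  let s := max U.length U'.length - k
  let ρ := 2 * sz (U ++ U')
  let c0 := ((2 * ρ + 1) ^ 2) ^ k * ((2 * ρ + 1) ^ 2) ^ (k + s)
  let C := (2 * ρ + 1) ^ 2 * c0 + c0 + 1
  cst C s ((x ^ s)⁻¹) / (x ^ max U.length U'.length) ^ 2

theorem sz_comm (U U' : List P) : sz (U ++ U') = sz (U' ++ U) := by
  unfold sz
  congr 1
  ext x
  simp only [List.mem_toFinset, List.mem_append]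
  exact or_comm

theorem cc_comm (U U' : List P) (x : ℝ) : cc U U' x = cc U' U x := by
  unfold cc
  simp only [sz_comm U U', min_comm U.length, max_comm U.length]

theorem cc_pos (U U' : List P) {x : ℝ} (hx : 0 < x) : 0 < cc U U' x := by
  unfold cc
  simp only
  apply div_pos
  · apply cst_pos
    · omega
    · positivity
  · positivity

/-- the tail bound in a domain, `U` shorter than `U'` -/
theorem tail_le (hA : Short A) (R : Set P) (U U' : List P) (h : Ends U U')
    (hl : U.length ≤ U'.length) {x : ℝ} (hx : 0 < x) {f : List P → ℝ} (hf0 : ∀ w, 0 ≤ f w)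
    (hf1 : ∀ w w' : List P, w.head? = w'.head? → w.getLast? = w'.getLast? → f w = f w')
    {Z : ℝ} (hZ : ∀ N : ℕ, ∑ n ∈ range N, x ^ n * ∑ w ∈ Kw A n, f w ≤ Z) {l : ℕ} (hl1 : 1 ≤ l)
    {t : ℝ} (ht : 0 ≤ t) :
    ∑ n ∈ range (l + 1), x ^ n * ∑ w ∈ (Kw A n).filter (fun w =>
      t ≤ |x ^ U'.length * ND A R U U' w - x ^ U.length * ND A R U' U w|), f w ≤
      2 * Real.exp 1 * Real.exp (-(cc U U' x * (t ^ 2 / l))) * Z := by
  obtain ⟨Q, hQ⟩ : ∃ Q, Q = rlD hA R U U' h hl := ⟨_, rfl⟩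
  have hs : Q.sys.s = U'.length - U.length := by rw [hQ]; rfl
  have hC : Q.sys.C = Q.CC := rfl
  have hp : 0 < x ^ U'.length := by positivity
  have hxs : 0 < x ^ Q.sys.s := by positivity
  have h1 := tailx (Y := Q.sys) (f := f) (a := (x ^ Q.sys.s)⁻¹) (x := x)
    (t := t / x ^ U'.length) (Z := Z) (l := l) rfl
    (by rw [hQ]; exact wt_of_ends hA R U U' h hl hf0 hf1) (by positivity) hx
    (inv_mul_cancel₀ hxs.ne') (H726.GB.B_le Q) hl1 (by positivity) hZ
  have e1 : cc U U' x * (t ^ 2 / l) =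
      cst Q.sys.C Q.sys.s ((x ^ Q.sys.s)⁻¹) * ((t / x ^ U'.length) ^ 2 / l) := by
    have e2 : cc U U' x = cst Q.sys.C Q.sys.s ((x ^ Q.sys.s)⁻¹) / (x ^ U'.length) ^ 2 := by
      unfold cc
      simp only [min_eq_left hl, max_eq_right hl]
      rw [hC, hs, hQ]
      rfl
    rw [e2]
    field_simp
  rw [e1]
  refine le_trans (le_of_eq ?_) h1
  refine Finset.sum_congr rfl fun n _ => ?_
  congr 1
  apply Finset.sum_congr _ fun _ _ => rfl
  show (Kw A n).filter _ = (Kw A n).filter _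
  apply Finset.filter_congr
  intro w _
  rw [div_le_iff₀ hp]
  have e3 : (Q.sys.S w).card = ND A R U U' w := by rw [hQ]; exact card_S hA R U U' h hl w
  have e4 : (Q.sys.B w).card = ND A R U' U w := by rw [hQ]; exact card_B hA R U U' h hl w
  rw [e3, e4]
  have e5 : x ^ U'.length = x ^ U.length * x ^ Q.sys.s := by
    rw [← pow_add, hs]
    congr 1
    omega
  have e6 : x ^ U'.length * (ND A R U U' w : ℝ) - x ^ U.length * ND A R U' U w =
      (ND A R U U' w - (x ^ Q.sys.s)⁻¹ * ND A R U' U w) * x ^ U'.length := by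
    rw [e5]
    field_simp
  rw [e6, abs_mul, abs_of_pos hp]

/-- the tail bound in a domain -/
theorem tailD (hA : Short A) (R : Set P) (U U' : List P) (h : Ends U U')
    {x : ℝ} (hx : 0 < x) {f : List P → ℝ} (hf0 : ∀ w, 0 ≤ f w)
    (hf1 : ∀ w w' : List P, w.head? = w'.head? → w.getLast? = w'.getLast? → f w = f w')
    {Z : ℝ} (hZ : ∀ N : ℕ, ∑ n ∈ range N, x ^ n * ∑ w ∈ Kw A n, f w ≤ Z) {l : ℕ} (hl1 : 1 ≤ l)
    {t : ℝ} (ht : 0 ≤ t) :
    ∑ n ∈ range (l + 1), x ^ n * ∑ w ∈ (Kw A n).filter (fun w =>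
      t ≤ |x ^ U'.length * ND A R U U' w - x ^ U.length * ND A R U' U w|), f w ≤
      2 * Real.exp 1 * Real.exp (-(cc U U' x * (t ^ 2 / l))) * Z := by
  rcases le_total U.length U'.length with hl | hl
  · exact tail_le hA R U U' h hl hx hf0 hf1 hZ hl1 ht
  · have h1 := tail_le hA R U' U h.symm hl hx hf0 hf1 hZ hl1 ht
    rw [cc_comm] at h1
    refine le_trans (le_of_eq ?_) h1
    refine Finset.sum_congr rfl fun n _ => ?_
    congr 1
    apply Finset.sum_congr _ fun _ _ => rfl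
    apply Finset.filter_congr
    intro w _
    rw [abs_sub_comm]

/-- the exact identity, `U'.length = U.length + s` -/
theorem identD (hA : Short A) (R : Set P) (U U' : List P) (h : Ends U U') (s : ℕ)
    (hs : U'.length = U.length + s) {f : List P → ℝ} (hf0 : ∀ w, 0 ≤ f w)
    (hf1 : ∀ w w' : List P, w.head? = w'.head? → w.getLast? = w'.getLast? → f w = f w') (n : ℕ) :
    ∑ w ∈ Kw A n, ND A R U U' w * f w = ∑ w ∈ Kw A (n + s), ND A R U' U w * f w := by
  have hl : U.length ≤ U'.length := by omega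
  have hWt := wt_of_ends hA R U U' h hl hf0 hf1
  have hss : (rlD hA R U U' h hl).sys.s = s := by
    show U'.length - U.length = s
    omega
  have h1 := (rlD hA R U U' h hl).sys.sum_eq n (Nat.zero_le n) (fun _ w' => f w')
  rw [hss] at h1
  have h2 : ∀ w ∈ Kw A n, ∑ q ∈ (rlD hA R U U' h hl).sys.S w,
      f ((rlD hA R U U' h hl).sys.ins w q) = ND A R U U' w * f w := by
    intro w hw
    rw [Finset.sum_congr rfl fun q hq => hWt.2 n w q hw hq, Finset.sum_const, nsmul_eq_mul, card_S]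
  have h3 : ∀ w ∈ Kw A (n + s), ∑ q ∈ (rlD hA R U U' h hl).sys.B w, f w =
      ND A R U' U w * f w := by
    intro w hw
    rw [Finset.sum_const, nsmul_eq_mul, card_B]
  calc ∑ w ∈ Kw A n, ND A R U U' w * f w
      = ∑ w ∈ Kw A n, ∑ q ∈ (rlD hA R U U' h hl).sys.S w,
        f ((rlD hA R U U' h hl).sys.ins w q) := Finset.sum_congr rfl fun w hw => (h2 w hw).symm
    _ = ∑ w ∈ Kw A (n + s), ∑ q ∈ (rlD hA R U U' h hl).sys.B w, f w := h1
    _ = _ := Finset.sum_congr rfl h3

/-- in a walk, the number of steps bounds the number of places -/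
theorem ND_le (hA : Short A) (R : Set P) (U U' : List P) (h : Ends U U')
    (hl : U.length ≤ U'.length) {n : ℕ} {w : List P} (hw : w ∈ Kw A n) :
    ND A R U U' w ≤ (rlD hA R U U' h hl).sys.C * (n + 1) := by
  rw [← card_S hA R U U' h hl]
  exact (rlD hA R U U' h hl).sys.S_le n w hw

end

end Pool.Agent.R442.LB
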