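import Pool.Agent.R442.LB.On

/-!
# The balance of local patterns for the paths which avoid given loops
-/

set_option autoImplicit false
set_option maxHeartbeats 1000000

namespace Pool.Agent.R442.LB

open Finset TH966.AK H726.GB
open scoped Classical ENNReal

noncomputable section

variable {D : Set (Sym2 P)} {ω : Finset (Sym2 P)} {a b : P}

/-- edges of the domain are short -/
def ShortD (D : Set (Sym2 P)) : Prop :=
  ∀ p q : P, s(p, q) ∈ D → |p.1 - q.1| ≤ 1 ∧ |p.2 - q.2| ≤ 1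

theorem short_Aw (hD : ShortD D) : Short (Aw D ω a) := by
  intro p q h
  have h1 := hD _ _ h.1
  simp only [Prod.fst_add, Prod.snd_add, add_sub_add_left_eq_sub] at h1
  exact h1

/-- the relation between the places, for a walk with the right end -/
theorem NR_mul_fe (hab : a ≠ b) {U U' : List P} (h : Ends U U') (R : Set P) {n : ℕ} {w : List P}
    (hA : Short (Aw D ω a)) (hw : w ∈ Kw (Aw D ω a) n) (hfe : fe (b - a) w ≠ 0) :
    NR D R U U' (w.map (a + ·)) ω = ND (Aw D ω a) {x | a + x ∈ R} U U' w := by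
  let Z0 : Rl (Aw D ω a) := rlD hA ∅ [0] [0] ⟨by simp, by simp, rfl, rfl, by simp, by simp⟩ le_rfl
  have h1 := (Z0.mem_K.1 hw).2
  have h2 : w.getLast? = some (b - a) := by
    by_contra hcon
    exact hfe (if_neg hcon)
  exact NR_eq h h1 ((path_iff hab).2 ⟨h1, h2⟩).2

/-- the bad event -/
def Bad (D : Set (Sym2 P)) (R : Set P) (U U' : List P) (x : ℝ) (l : ℕ) (t : ℝ)
    (ω : Finset (Sym2 P)) (γ : List P) : Prop :=
  γ.length - 1 ≤ l ∧ t ≤ |x ^ U'.length * NR D R U U' γ ω - x ^ U.length * NR D R U' U γ ω|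

theorem bad_le (hD : ShortD D) (hab : a ≠ b) (R : Set P) (U U' : List P) (h : Ends U U')
    {x : ℝ} (hx : 0 < x) {l : ℕ} (hl : 1 ≤ l) {t : ℝ} (ht : 0 ≤ t) :
    SS D a b x ω (fun γ => ENNReal.ofReal (if Bad D R U U' x l t ω γ then 1 else 0)) ≤
      ENNReal.ofReal (2 * Real.exp 1 * Real.exp (-(cc U U' x * (t ^ 2 / l)))) *
        SS D a b x ω (fun _ => ENNReal.ofReal 1) := by
  have hA : Short (Aw D ω a) := short_Aw hD
  have hc : 0 < 2 * Real.exp 1 * Real.exp (-(cc U U' x * (t ^ 2 / l))) := by positivity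
  rcases eq_or_ne (SS D a b x ω (fun _ => ENNReal.ofReal 1)) ⊤ with htop | htop
  · rw [htop, ENNReal.mul_top (by simpa using hc)]
    exact le_top
  have h1 := conv (D := D) (ω := ω) hab hA hx (fun _ => 1) (fun _ => zero_le_one)
  obtain ⟨Z, hZ⟩ : ∃ Z, Z = (SS D a b x ω (fun _ => ENNReal.ofReal 1)).toReal := ⟨_, rfl⟩
  have hZ' : ENNReal.ofReal Z = SS D a b x ω (fun _ => ENNReal.ofReal 1) := by
    rw [hZ, ENNReal.ofReal_toReal htop]
  have hpos : ∀ n : ℕ, 0 ≤ x ^ n * ∑ w ∈ Kw (Aw D ω a) n, fe (b - a) w := fun n =>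
    mul_nonneg (by positivity) (Finset.sum_nonneg fun w _ => fe_nonneg _ _)
  have hpart : ∀ N : ℕ, ∑ n ∈ range N, x ^ n * ∑ w ∈ Kw (Aw D ω a) n, fe (b - a) w ≤ Z := by
    intro N
    have h2 : ENNReal.ofReal (∑ n ∈ range N, x ^ n * ∑ w ∈ Kw (Aw D ω a) n, fe (b - a) w) ≤
        ENNReal.ofReal Z := by
      rw [hZ', h1, ENNReal.ofReal_sum_of_nonneg fun n _ => hpos n]
      simp only [one_mul]
      exact ENNReal.sum_le_tsum _
    exact (ENNReal.ofReal_le_ofReal_iff (by rw [hZ]; exact ENNReal.toReal_nonneg)).1 h2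
  have h3 := tailD hA {y | a + y ∈ R} U U' h hx (f := fe (b - a)) (fe_nonneg _)
    (fe_ends _) hpart hl ht
  rw [conv hab hA hx _ (fun w => by split_ifs <;> norm_num)]
  have hterm : ∀ n, ∑ w ∈ Kw (Aw D ω a) n,
      (if Bad D R U U' x l t ω (w.map (a + ·)) then (1 : ℝ) else 0) * fe (b - a) w =
      if n ≤ l then ∑ w ∈ (Kw (Aw D ω a) n).filter (fun w =>
        t ≤ |x ^ U'.length * ND (Aw D ω a) {y | a + y ∈ R} U U' w -
          x ^ U.length * ND (Aw D ω a) {y | a + y ∈ R} U' U w|), fe (b - a) w else 0 := by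
    intro n
    let Z0 : Rl (Aw D ω a) :=
      rlD hA ∅ [0] [0] ⟨by simp, by simp, rfl, rfl, by simp, by simp⟩ le_rfl
    have hlen : ∀ w ∈ Kw (Aw D ω a) n, (w.map (a + ·)).length - 1 = n := by
      intro w hw
      rw [List.length_map, (Z0.mem_K.1 hw).1]
      omega
    split_ifs with hn
    · rw [Finset.sum_filter]
      refine Finset.sum_congr rfl fun w hw => ?_
      by_cases hfe : fe (b - a) w = 0
      · rw [hfe, mul_zero, ite_self]
      · unfold Bad
        rw [hlen w hw, NR_mul_fe hab h R hA hw hfe, NR_mul_fe hab h.symm R hA hw hfe]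
        by_cases hb : t ≤ |x ^ U'.length * ND (Aw D ω a) {y | a + y ∈ R} U U' w -
          x ^ U.length * ND (Aw D ω a) {y | a + y ∈ R} U' U w|
        · rw [if_pos ⟨hn, hb⟩, if_pos hb, one_mul]
        · rw [if_neg (fun hh => hb hh.2), if_neg hb, zero_mul]
    · refine Finset.sum_eq_zero fun w hw => ?_
      unfold Bad
      rw [hlen w hw, if_neg (fun hh => hn hh.1), zero_mul]
  have h4 : ∑' n : ℕ, ENNReal.ofReal (x ^ n * ∑ w ∈ Kw (Aw D ω a) n,
      (if Bad D R U U' x l t ω (w.map (a + ·)) then (1 : ℝ) else 0) * fe (b - a) w) =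
      ENNReal.ofReal (∑ n ∈ range (l + 1), x ^ n * ∑ w ∈ (Kw (Aw D ω a) n).filter (fun w =>
        t ≤ |x ^ U'.length * ND (Aw D ω a) {y | a + y ∈ R} U U' w -
          x ^ U.length * ND (Aw D ω a) {y | a + y ∈ R} U' U w|), fe (b - a) w) := by
    rw [tsum_eq_sum (s := range (l + 1))]
    · rw [ENNReal.ofReal_sum_of_nonneg fun n _ =>
        mul_nonneg (by positivity) (Finset.sum_nonneg fun w _ => fe_nonneg _ _)]
      refine Finset.sum_congr rfl fun n hn => ?_
      rw [hterm, if_pos (by have := mem_range.1 hn; omega)]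
    · intro n hn
      rw [hterm, if_neg (by rw [mem_range] at hn; omega), mul_zero, ENNReal.ofReal_zero]
  rw [h4, ← hZ', ← ENNReal.ofReal_mul hc.le]
  exact ENNReal.ofReal_le_ofReal h3

theorem sum_conv (hD : ShortD D) (hab : a ≠ b) (R : Set P) (U U' : List P) (h : Ends U U')
    {x : ℝ} (hx : 0 < x) :
    SS D a b x ω (fun γ => ENNReal.ofReal (NR D R U U' γ ω : ℝ)) =
      ∑' n : ℕ, ENNReal.ofReal (x ^ n * ∑ w ∈ Kw (Aw D ω a) n,
        ND (Aw D ω a) {y | a + y ∈ R} U U' w * fe (b - a) w) := by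
  have hA : Short (Aw D ω a) := short_Aw hD
  rw [conv hab hA hx _ (fun w => Nat.cast_nonneg _)]
  refine tsum_congr fun n => ?_
  congr 2
  refine Finset.sum_congr rfl fun w hw => ?_
  by_cases hfe : fe (b - a) w = 0
  · rw [hfe, mul_zero, mul_zero]
  · rw [NR_mul_fe hab h R hA hw hfe]

/-- exact balance, `U` shorter -/
theorem bal_le (hD : ShortD D) (hab : a ≠ b) (R : Set P) (U U' : List P) (h : Ends U U')
    (hl : U.length ≤ U'.length) {x : ℝ} (hx : 0 < x) :
    ENNReal.ofReal (x ^ U'.length) * SS D a b x ω (fun γ => ENNReal.ofReal (NR D R U U' γ ω : ℝ)) =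
      ENNReal.ofReal (x ^ U.length) *
        SS D a b x ω (fun γ => ENNReal.ofReal (NR D R U' U γ ω : ℝ)) := by
  have hA : Short (Aw D ω a) := short_Aw hD
  obtain ⟨s, hs⟩ : ∃ s, U'.length = U.length + s := ⟨U'.length - U.length, by omega⟩
  rw [sum_conv hD hab R U U' h hx, sum_conv hD hab R U' U h.symm hx]
  obtain ⟨q, hq⟩ : ∃ q : ℕ → ℝ, q = fun n => ∑ w ∈ Kw (Aw D ω a) n,
        ND (Aw D ω a) {y | a + y ∈ R} U' U w * fe (b - a) w := ⟨_, rfl⟩
  have hqn : ∀ n, ∑ w ∈ Kw (Aw D ω a) n,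
        ND (Aw D ω a) {y | a + y ∈ R} U' U w * fe (b - a) w = q n := by
    intro n; rw [hq]
  have hpn : ∀ n, ∑ w ∈ Kw (Aw D ω a) n,
        ND (Aw D ω a) {y | a + y ∈ R} U U' w * fe (b - a) w = q (n + s) := by
    intro n
    rw [← hqn]
    exact identD hA _ U U' h s hs (fe_nonneg _) (fe_ends _) n
  simp only [hqn, hpn]
  have hzero : ∀ m < s, q m = 0 := by
    intro m hm
    rw [← hqn]
    refine Finset.sum_eq_zero fun w hw => ?_
    let Z0 : Rl (Aw D ω a) :=
      rlD hA ∅ [0] [0] ⟨by simp, by simp, rfl, rfl, by simp, by simp⟩ le_rfl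
    have hlen := (Z0.mem_K.1 hw).1
    have hU : 1 ≤ U.length := List.length_pos_iff.2 h.1
    have : ND (Aw D ω a) {y | a + y ∈ R} U' U w = 0 := by
      unfold ND
      have he : {y : P | y ∈ {y | a + y ∈ R} ∧ (U'.map (y + ·)).IsChain (Aw D ω a) ∧
          (U.map (y + ·)).IsChain (Aw D ω a) ∧ U'.map (y + ·) <:+: w ∧
          ∀ z ∈ U, z ∉ U' → y + z ∉ w} = ∅ := by
        ext y
        simp only [Set.mem_ofPred_eq, Set.mem_empty_iff_false, iff_false]
        rintro ⟨-, -, -, h4, -⟩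
        have := h4.length_le
        rw [List.length_map] at this
        omega
      rw [he, Set.ncard_empty]
    rw [this, Nat.cast_zero, zero_mul]
  have hshift : ∑' m : ℕ, ENNReal.ofReal (x ^ m * q m) =
      ∑' n : ℕ, ENNReal.ofReal (x ^ (n + s) * q (n + s)) := by
    rw [← (ENNReal.summable (f := fun n => ENNReal.ofReal
      (x ^ (n + s) * q (n + s)))).sum_add_tsum_nat_add' (f := fun m => ENNReal.ofReal (x ^ m * q m))]
    rw [Finset.sum_eq_zero, zero_add]
    intro m hm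
    rw [hzero m (mem_range.1 hm), mul_zero, ENNReal.ofReal_zero]
  rw [hshift, ← ENNReal.tsum_mul_left, ← ENNReal.tsum_mul_left]
  refine tsum_congr fun n => ?_
  rw [← ENNReal.ofReal_mul (by positivity), ← ENNReal.ofReal_mul (by positivity)]
  congr 1
  rw [hs, pow_add, pow_add]
  ring

/-- exact balance -/
theorem bal (hD : ShortD D) (hab : a ≠ b) (R : Set P) (U U' : List P) (h : Ends U U')
    {x : ℝ} (hx : 0 < x) :
    ENNReal.ofReal (x ^ U'.length) * SS D a b x ω (fun γ => ENNReal.ofReal (NR D R U U' γ ω : ℝ)) =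
      ENNReal.ofReal (x ^ U.length) *
        SS D a b x ω (fun γ => ENNReal.ofReal (NR D R U' U γ ω : ℝ)) := by
  rcases le_total U.length U'.length with hl | hl
  · exact bal_le hD hab R U U' h hl hx
  · exact (bal_le hD hab R U' U h.symm hl hx).symm

end

end Pool.Agent.R442.LB
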