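import Pool.Agent.R442.LB.Dom

/-!
# Paths between two given points which avoid given loops
-/

set_option autoImplicit false
set_option maxHeartbeats 1000000

namespace Pool.Agent.R442.LB

open Finset TH966.AK H726.GB
open scoped Classical ENNReal

noncomputable section

/-- self-avoiding path from `a` to `b` with edges in `D` -/
def PathIn (D : Set (Sym2 P)) (a b : P) (γ : List P) : Prop :=
  γ.head? = some a ∧ γ.getLast? = some b ∧ γ.Nodup ∧ γ.IsChain (fun p q => s(p, q) ∈ D)

/-- no vertex of the path is on an edge of `ω` -/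
def Av (γ : List P) (ω : Finset (Sym2 P)) : Prop := ∀ p ∈ γ, ∀ e ∈ ω, p ∉ e

/-- the relation for paths started at the origin -/
def Aw (D : Set (Sym2 P)) (ω : Finset (Sym2 P)) (a p q : P) : Prop :=
  s(a + p, a + q) ∈ D ∧ (∀ e ∈ ω, a + p ∉ e) ∧ (∀ e ∈ ω, a + q ∉ e)

theorem chain_and {R : P → P → Prop} {Q : P → Prop} : ∀ (l : List P), l.IsChain R →
    (∀ p ∈ l, Q p) → l.IsChain (fun p q => R p q ∧ Q p ∧ Q q)
  | [], _, _ => List.isChain_nil
  | [x], _, _ => List.isChain_singleton x
  | x :: y :: l, h, hq => by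
    rw [List.isChain_cons_cons] at h ⊢
    exact ⟨⟨h.1, hq x (by simp), hq y (by simp)⟩,
      chain_and (y :: l) h.2 fun p hp => hq p (List.mem_cons_of_mem _ hp)⟩

theorem chain_and_inv {R : P → P → Prop} {Q : P → Prop} : ∀ (l : List P) (x y : P),
    (x :: y :: l).IsChain (fun p q => R p q ∧ Q p ∧ Q q) → ∀ p ∈ x :: y :: l, Q p
  | [], x, y, h => by
    rw [List.isChain_cons_cons] at h
    intro p hp
    simp only [List.mem_cons, List.not_mem_nil, or_false] at hp
    rcases hp with rfl | rfl
    · exact h.1.2.1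
    · exact h.1.2.2
  | z :: l, x, y, h => by
    rw [List.isChain_cons_cons] at h
    intro p hp
    rw [List.mem_cons] at hp
    rcases hp with rfl | hp
    · exact h.1.2.1
    · exact chain_and_inv l y z h.2 p hp

/-- a chain with at least two elements -/
theorem chain_mem {R : P → P → Prop} {Q : P → Prop} {l : List P} (hl : 2 ≤ l.length)
    (h : l.IsChain (fun p q => R p q ∧ Q p ∧ Q q)) : ∀ p ∈ l, Q p := by
  rcases l with _ | ⟨x, _ | ⟨y, l⟩⟩
  · simp at hl
  · simp at hl
  · exact chain_and_inv l x y h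

variable {D : Set (Sym2 P)} {ω : Finset (Sym2 P)} {a b : P}

theorem head_map {w : List P} : (w.map (a + ·)).head? = some a ↔ w.head? = some 0 := by
  rcases w with _ | ⟨x, w⟩
  · simp
  · simp

theorem last_map {w : List P} :
    (w.map (a + ·)).getLast? = some b ↔ w.getLast? = some (b - a) := by
  rw [List.getLast?_map]
  rcases w.getLast? with _ | x
  · simp
  · simp only [Option.map_some, Option.some.injEq]
    constructor
    · rintro rfl; abel
    · rintro rfl; abel

theorem isChain_Aw {w : List P} (h1 : (w.map (a + ·)).IsChain (fun p q => s(p, q) ∈ D))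
    (h2 : Av (w.map (a + ·)) ω) : w.IsChain (Aw D ω a) := by
  rw [List.isChain_map] at h1
  exact chain_and (Q := fun p => ∀ e ∈ ω, a + p ∉ e) w h1
    fun p hp => h2 (a + p) (List.mem_map.2 ⟨p, hp, rfl⟩)

theorem isChain_of_Aw {w : List P} (h : w.IsChain (Aw D ω a)) :
    (w.map (a + ·)).IsChain (fun p q => s(p, q) ∈ D) := by
  rw [List.isChain_map]
  exact h.imp fun p q hpq => hpq.1

theorem av_of_Aw {w : List P} (hw : 2 ≤ w.length) (h : w.IsChain (Aw D ω a)) :
    Av (w.map (a + ·)) ω := by
  intro p hp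
  obtain ⟨q, hq, rfl⟩ := List.mem_map.1 hp
  exact chain_mem (R := fun p q => s(a + p, a + q) ∈ D) (Q := fun p => ∀ e ∈ ω, a + p ∉ e) hw h q hq

theorem path_iff (hab : a ≠ b) {w : List P} :
    (PathIn D a b (w.map (a + ·)) ∧ Av (w.map (a + ·)) ω) ↔
      (Walk (Aw D ω a) w ∧ w.getLast? = some (b - a)) := by
  constructor
  · rintro ⟨⟨h1, h2, h3, h4⟩, h5⟩
    exact ⟨⟨head_map.1 h1, (List.nodup_map_iff (add_right_injective a)).1 h3,
      isChain_Aw h4 h5⟩, last_map.1 h2⟩
  · rintro ⟨⟨h1, h2, h3⟩, h4⟩
    have hlen : 2 ≤ w.length := by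
      rcases w with _ | ⟨x, _ | ⟨y, w⟩⟩
      · simp at h1
      · simp only [List.head?_cons, Option.some.injEq, List.getLast?_singleton] at h1 h4
        exfalso
        apply hab
        have : b - a = 0 := by rw [← h4, h1]
        exact (sub_eq_zero.1 this).symm
      · simp
    exact ⟨⟨head_map.2 h1, last_map.2 h4, h2.map (add_right_injective a), isChain_of_Aw h3⟩,
      av_of_Aw hlen h3⟩

/-- number of places in `R` where `U` can be replaced by `U'` in `γ`, with edges in `D`, without
touching `ω` -/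
def NR (D : Set (Sym2 P)) (R : Set P) (U U' : List P) (γ : List P) (ω : Finset (Sym2 P)) : ℕ :=
  Set.ncard {z : P | z ∈ R ∧ U.map (z + ·) <:+: γ ∧
    (U'.map (z + ·)).IsChain (fun p q => s(p, q) ∈ D) ∧
    ∀ y ∈ U', y ∉ U → z + y ∉ γ ∧ ∀ e ∈ ω, z + y ∉ e}

theorem inf_map {V w : List P} : V.map (a + ·) <:+: w.map (a + ·) ↔ V <:+: w := by
  constructor
  · intro h
    have h1 := h.map (-a + ·)
    rw [List.map_map, List.map_map] at h1
    have e : ((fun x => -a + x) ∘ fun x => a + x) = (id : P → P) := by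
      funext x; simp
    rwa [e, List.map_id, List.map_id] at h1
  · exact fun h => h.map _

theorem map_map_add (x : P) (U : List P) :
    (U.map (x + ·)).map (a + ·) = U.map ((a + x) + ·) := by
  rw [List.map_map]
  apply List.map_congr_left
  intro y _
  simp [add_assoc]

theorem NR_eq {U U' : List P} (h : Ends U U') {R : Set P} {w : List P} (hw : Walk (Aw D ω a) w)
    (hw2 : Av (w.map (a + ·)) ω) :
    NR D R U U' (w.map (a + ·)) ω = ND (Aw D ω a) {x | a + x ∈ R} U U' w := by
  unfold NR ND
  symm
  rw [← Set.ncard_image_of_injective _ (add_right_injective a)]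
  congr 1
  ext z
  rw [Set.mem_image]
  have hmem : ∀ y, a + y ∈ w.map (a + ·) ↔ y ∈ w := by
    intro y
    rw [List.mem_map]
    constructor
    · rintro ⟨x, hx, hxy⟩
      rwa [← add_right_injective a hxy]
    · exact fun hy => ⟨y, hy, rfl⟩
  refine Iff.symm ⟨?_, ?_⟩
  · rintro ⟨h1, h2, h3, h4⟩
    refine ⟨z - a, ⟨?_, ?_, ?_, ?_, ?_⟩, by abel⟩
    · show a + (z - a) ∈ R
      rwa [add_sub_cancel]
    · have e : U.map (z + ·) = (U.map ((z - a) + ·)).map (a + ·) := by
        rw [map_map_add, add_sub_cancel]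
      rw [e, inf_map] at h2
      obtain ⟨L, M, hLM⟩ := h2
      have h5 := hw.2.2
      rw [← hLM, List.isChain_append, List.isChain_append] at h5
      exact h5.1.2.1
    · apply isChain_Aw
      · rw [map_map_add, add_sub_cancel]; exact h3
      · rw [map_map_add, add_sub_cancel]
        intro p hp e he
        obtain ⟨y, hy, rfl⟩ := List.mem_map.1 hp
        by_cases hyU : y ∈ U
        · exact hw2 _ (h2.subset (List.mem_map.2 ⟨y, hyU, rfl⟩)) e he
        · exact (h4 y hy hyU).2 e he
    · have e : U.map (z + ·) = (U.map ((z - a) + ·)).map (a + ·) := by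
        rw [map_map_add, add_sub_cancel]
      rwa [e, inf_map] at h2
    · intro y hy hyU hc
      apply (h4 y hy hyU).1
      have : z + y = a + (z - a + y) := by abel
      rw [this, hmem]
      exact hc
  · rintro ⟨x, ⟨h1, h2, h3, h4, h5⟩, rfl⟩
    refine ⟨h1, ?_, ?_, ?_⟩
    · rw [← map_map_add, inf_map]; exact h4
    · rw [← map_map_add]; exact isChain_of_Aw h3
    · intro y hy hyU
      constructor
      · intro hc
        rw [add_assoc, hmem] at hc
        exact h5 y hy hyU hc
      · have hlen : 2 ≤ (U'.map (x + ·)).length := by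
          rw [List.length_map]
          by_contra hcon
          obtain ⟨e1, e2, e3, e4, e5, e6⟩ := h
          rcases U' with _ | ⟨u, _ | ⟨v, U'⟩⟩
          · exact e2 rfl
          · simp only [List.head?_cons, List.mem_singleton] at e3 hy
            rcases U with _ | ⟨p, U⟩
            · exact e1 rfl
            · simp only [List.head?_cons, Option.some.injEq] at e3
              apply hyU
              rw [hy, ← e3]
              simp
          · simp at hcon
        have h6 := av_of_Aw hlen h3
        intro e he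
        apply h6 _ _ e he
        rw [map_map_add]
        exact List.mem_map.2 ⟨y, hy, rfl⟩

/-- indicator of the end -/
def fe (v : P) (w : List P) : ℝ := if w.getLast? = some v then 1 else 0

theorem fe_nonneg (v : P) (w : List P) : 0 ≤ fe v w := by
  unfold fe; split_ifs <;> norm_num

theorem fe_ends (v : P) (w w' : List P) (_ : w.head? = w'.head?)
    (h2 : w.getLast? = w'.getLast?) : fe v w = fe v w' := by
  unfold fe; rw [h2]

/-- weighted number of the paths which avoid `ω` -/
def SS (D : Set (Sym2 P)) (a b : P) (x : ℝ) (ω : Finset (Sym2 P)) (g : List P → ℝ≥0∞) : ℝ≥0∞ :=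
  ∑' γ : List P, if PathIn D a b γ ∧ Av γ ω then ENNReal.ofReal (x ^ (γ.length - 1)) * g γ else 0

theorem conv (hab : a ≠ b) (hA : Short (Aw D ω a)) {x : ℝ} (hx : 0 < x)
    (g : List P → ℝ) (hg : ∀ w, 0 ≤ g w) :
    SS D a b x ω (fun γ => ENNReal.ofReal (g γ)) =
      ∑' n : ℕ, ENNReal.ofReal (x ^ n * ∑ w ∈ Kw (Aw D ω a) n, g (w.map (a + ·)) * fe (b - a) w) := by
  unfold SS
  let Z0 : Rl (Aw D ω a) := rlD hA ∅ [0] [0] ⟨by simp, by simp, rfl, rfl, by simp, by simp⟩ le_rfl
  rw [← ((Equiv.addLeft a).listEquivOfEquiv).tsum_eq]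
  have e1 : ∀ w : List P, ((Equiv.addLeft a).listEquivOfEquiv w) = w.map (a + ·) := fun w => rfl
  simp only [e1, path_iff hab, List.length_map]
  have e2 : ∀ w : List P, (if Walk (Aw D ω a) w ∧ w.getLast? = some (b - a) then
      ENNReal.ofReal (x ^ (w.length - 1)) * ENNReal.ofReal (g (w.map (a + ·))) else 0) =
      ∑' n : ℕ, (if w ∈ Kw (Aw D ω a) n then
        ENNReal.ofReal (x ^ n * (g (w.map (a + ·)) * fe (b - a) w)) else 0) := by
    intro w
    by_cases hw : Walk (Aw D ω a) w
    · have hne : w ≠ [] := by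
        rintro rfl
        simpa using hw.1
      have hl : w.length = w.length - 1 + 1 := by
        have := List.length_pos_iff.2 hne
        omega
      rw [tsum_eq_single (w.length - 1)]
      · rw [if_pos (Z0.mem_K.2 ⟨hl, hw⟩)]
        unfold fe
        by_cases hq : w.getLast? = some (b - a)
        · rw [if_pos ⟨hw, hq⟩, if_pos hq, mul_one, ENNReal.ofReal_mul (by positivity)]
        · rw [if_neg (fun h => hq h.2), if_neg hq, mul_zero, mul_zero, ENNReal.ofReal_zero]
      · intro n hn
        rw [if_neg]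
        intro h
        have := (Z0.mem_K.1 h).1
        omega
    · rw [if_neg (fun h => hw h.1)]
      symm
      rw [ENNReal.tsum_eq_zero]
      intro n
      rw [if_neg]
      intro h
      exact hw (Z0.mem_K.1 h).2
  rw [tsum_congr e2, ENNReal.tsum_comm]
  refine tsum_congr fun n => ?_
  rw [tsum_eq_sum (s := Kw (Aw D ω a) n) (fun w hw => if_neg hw)]
  rw [Finset.mul_sum, ENNReal.ofReal_sum_of_nonneg]
  · refine Finset.sum_congr rfl fun w hw => ?_
    rw [if_pos hw]
  · intro w _
    have := hg (w.map (a + ·))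
    have := fe_nonneg (b - a) w
    positivity

end

end Pool.Agent.R442.LB
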